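import Mathlib

open MeasureTheory Set Filter Topology
open scoped ContDiff

namespace Pool.Agent.Results.MP_f32666_pr.Faces

noncomputable section

abbrev V := Fin 3 → ℝ

/-- The octahedron of mean currents. -/
def O : Set V := {s | |s 0| + |s 1| + |s 2| ≤ 1}

/-- The union of the twelve edges of the octahedron. -/
def Edges : Set V := {s | |s 0| + |s 1| + |s 2| = 1 ∧ ∃ i, s i = 0}

/-- The closed face with vertices e1, e2, e3. -/
def F : Set V := {s | (∀ i, 0 ≤ s i) ∧ s 0 + s 1 + s 2 = 1}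

/-- The relative interior of that face. -/
def Fint : Set V := {s | (∀ i, 0 < s i) ∧ s 0 + s 1 + s 2 = 1}

/-- The region: the cube [-1,1]^3. -/
def R : Set V := {x | ∀ i, |x i| ≤ 1}

/-- Test functions on R^3. -/
def Test (ψ : V → ℝ) : Prop := ContDiff ℝ ∞ ψ ∧ HasCompactSupport ψ

/-- The pairing of the field g with the gradient of ψ (minus div g applied to ψ). -/
def pair (g : V → V) (ψ : V → ℝ) : ℝ := ∫ x, fderiv ℝ ψ x (g x)

/-- Asymptotic flows on R: measurable, zero off R, valued in O on R, divergence free inside R. -/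
def AF : Set (V → V) :=
  {g | AEMeasurable g volume ∧ (∀ᵐ x, (x ∈ R → g x ∈ O) ∧ (x ∉ R → g x = 0)) ∧
    ∀ ψ, Test ψ → tsupport ψ ⊆ interior R → pair g ψ = 0}

/-- Asymptotic flows with the same boundary value (the distribution div g0 on R^3) as g0. -/
def AFb (g0 : V → V) : Set (V → V) := {g | g ∈ AF ∧ ∀ ψ, Test ψ → pair g ψ = pair g0 ψ}

/-- The entropy functional of a local entropy function. -/
def Ent (ent : V → ℝ) (g : V → V) : ℝ := (volume R).toReal⁻¹ * ∫ x in R, ent (g x)

/-- g maximises Ent among the asymptotic flows with its own boundary value, uniquely. -/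
def UniqueMax (ent : V → ℝ) (g : V → V) : Prop :=
  g ∈ AF ∧ (∀ g' ∈ AFb g, Ent ent g' ≤ Ent ent g) ∧
    ∀ g' ∈ AFb g, Ent ent g ≤ Ent ent g' → g' =ᵐ[volume] g

def lin (a : ℝ) : V →L[ℝ] ℝ :=
  ContinuousLinearMap.proj 0 + a • ContinuousLinearMap.proj 1 + ContinuousLinearMap.proj 2

lemma lin_apply (a : ℝ) (x : V) : lin a x = x 0 + a * x 1 + x 2 := by
  simp [lin]

def A1 : Set V := R ∩ {x | 5 / 2 < lin 1 x}
def A2 : Set V := R ∩ {x | 5 / 2 < lin (-1) x}
def A3 : Set V := R \ (A1 ∪ A2)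

def e0 : V := ![1, 0, 0]
def mir (s : V) : V := ![s 0, -s 1, s 2]

open Classical in
def G (s : V) (x : V) : V :=
  if x ∈ A1 then s else if x ∈ A2 then mir s else if x ∈ R then e0 else 0

lemma R_eq : R = Metric.closedBall 0 1 := by
  ext x
  simp [R, pi_norm_le_iff_of_nonneg]

lemma R_cpt : IsCompact R := R_eq ▸ isCompact_closedBall 0 1
lemma R_meas : MeasurableSet R := R_cpt.measurableSet
lemma R_fin : volume R ≠ ⊤ := R_cpt.measure_lt_top.ne
lemma H_meas (a : ℝ) : MeasurableSet {x : V | 5 / 2 < lin a x} :=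
  (isOpen_lt continuous_const (lin a).continuous).measurableSet
lemma A1_meas : MeasurableSet A1 := R_meas.inter (H_meas 1)
lemma A2_meas : MeasurableSet A2 := R_meas.inter (H_meas (-1))
lemma A3_meas : MeasurableSet A3 := R_meas.diff (A1_meas.union A2_meas)

lemma G_meas (s : V) : Measurable (G s) :=
  Measurable.ite A1_meas measurable_const
    (Measurable.ite A2_meas measurable_const
      (Measurable.ite R_meas measurable_const measurable_const))

lemma x1_ge {x : V} (hx : x ∈ R) (h : 5 / 2 ≤ lin 1 x) : 1 / 2 ≤ x 1 := by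
  rw [lin_apply] at h
  have h0 := abs_le.1 (hx 0); have h2 := abs_le.1 (hx 2)
  linarith [h0.2, h2.2]

lemma x1_le {x : V} (hx : x ∈ R) (h : 5 / 2 ≤ lin (-1) x) : x 1 ≤ -(1 / 2) := by
  rw [lin_apply] at h
  have h0 := abs_le.1 (hx 0); have h2 := abs_le.1 (hx 2)
  linarith [h0.2, h2.2]

lemma disj {x : V} (h1 : x ∈ A1) (h2 : x ∈ A2) : False := by
  have := x1_ge h1.1 (le_of_lt h1.2); have := x1_le h2.1 (le_of_lt h2.2); linarith

lemma G_A1 (s : V) {x : V} (h : x ∈ A1) : G s x = s := by simp [G, h]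
lemma G_A2 (s : V) {x : V} (h : x ∈ A2) : G s x = mir s := by
  have : x ∉ A1 := fun h1 => disj h1 h
  simp [G, h, this]
lemma G_A3 (s : V) {x : V} (h : x ∈ A3) : G s x = e0 := by
  have h1 : x ∉ A1 := fun h1 => h.2 (Or.inl h1)
  have h2 : x ∉ A2 := fun h2 => h.2 (Or.inr h2)
  simp [G, h1, h2, h.1]
lemma G_out (s : V) {x : V} (h : x ∉ R) : G s x = 0 := by
  have h1 : x ∉ A1 := fun h1 => h h1.1
  have h2 : x ∉ A2 := fun h2 => h h2.1
  simp [G, h1, h2, h]

lemma cases {x : V} (h : x ∈ R) : x ∈ A1 ∨ x ∈ A2 ∨ x ∈ A3 := by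
  by_cases h1 : x ∈ A1
  · exact Or.inl h1
  by_cases h2 : x ∈ A2
  · exact Or.inr (Or.inl h2)
  exact Or.inr (Or.inr ⟨h, fun h' => h'.elim h1 h2⟩)

lemma F_O {s : V} (hs : s ∈ F) : s ∈ O := by
  simp only [O, mem_ofPred_eq, abs_of_nonneg (hs.1 _)]; exact hs.2.le
lemma mir_O {s : V} (hs : s ∈ F) : mir s ∈ O := by
  have := F_O hs
  simpa [O, mir] using this
lemma e0_O : e0 ∈ O := by simp [O, e0]

lemma G_O {s : V} (hs : s ∈ F) {x : V} (h : x ∈ R) : G s x ∈ O := by
  rcases cases h with h | h | h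
  · rw [G_A1 s h]; exact F_O hs
  · rw [G_A2 s h]; exact mir_O hs
  · rw [G_A3 s h]; exact e0_O

/-- measurable, O-valued on R, zero outside -/
def Good (g : V → V) : Prop :=
  AEMeasurable g volume ∧ ∀ᵐ x, (x ∈ R → g x ∈ O) ∧ (x ∉ R → g x = 0)

lemma G_good {s : V} (hs : s ∈ F) : Good (G s) :=
  ⟨(G_meas s).aemeasurable, Eventually.of_forall fun _ => ⟨G_O hs, G_out s⟩⟩

lemma O_norm {s : V} (hs : s ∈ O) : ‖s‖ ≤ 1 := by
  refine (pi_norm_le_iff_of_nonneg zero_le_one).2 fun i => ?_
  have h : |s 0| + |s 1| + |s 2| ≤ 1 := hs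
  have h0 := abs_nonneg (s 0); have h1 := abs_nonneg (s 1); have h2 := abs_nonneg (s 2)
  fin_cases i <;> simp <;> linarith

lemma good_int {g : V → V} (hg : Good g) {L : V → V →L[ℝ] ℝ} (hL : Continuous L) :
    Integrable (fun x => L x (g x)) := by
  obtain ⟨C, hC⟩ := R_cpt.exists_bound_of_continuousOn hL.continuousOn
  have hm : AEStronglyMeasurable (fun x => L x (g x)) volume :=
    (isBoundedBilinearMap_apply.continuous.comp_aestronglyMeasurable
      (hL.aestronglyMeasurable.prodMk hg.1.aestronglyMeasurable))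
  refine Integrable.mono' ((integrable_indicator_iff R_meas).2
    (integrableOn_const (C := C) R_fin)) hm ?_
  filter_upwards [hg.2] with x hx
  by_cases h : x ∈ R
  · rw [indicator_of_mem h]
    calc ‖L x (g x)‖ ≤ ‖L x‖ * ‖g x‖ := (L x).le_opNorm _
      _ ≤ C * 1 := mul_le_mul (hC x h) (O_norm (hx.1 h)) (norm_nonneg _)
          ((norm_nonneg _).trans (hC x h))
      _ = C := mul_one C
  · rw [indicator_of_notMem h, hx.2 h]; simp

lemma good_int' {g : V → V} (hg : Good g) : Integrable g := by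
  refine Integrable.mono' ((integrable_indicator_iff R_meas).2
    (integrableOn_const (C := (1 : ℝ)) R_fin)) hg.1.aestronglyMeasurable ?_
  filter_upwards [hg.2] with x hx
  by_cases h : x ∈ R
  · rw [indicator_of_mem h]; exact O_norm (hx.1 h)
  · rw [indicator_of_notMem h, hx.2 h]; simp

lemma pair_cut {g : V → V} (hg : Good g) {ψ : V → ℝ} (χ : ContDiffBump (0 : V))
    (hχ : χ.rIn = 2) : pair g (fun x => χ x * ψ x) = pair g ψ := by
  refine integral_congr_ae ?_
  filter_upwards [hg.2] with x hx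
  by_cases h : x ∈ R
  · have : (fun x => χ x * ψ x) =ᶠ[𝓝 x] ψ := by
      have hb : x ∈ Metric.ball (0 : V) χ.rIn := by
        rw [R_eq] at h; rw [hχ]
        exact Metric.closedBall_subset_ball (by norm_num) h
      filter_upwards [Metric.isOpen_ball.mem_nhds hb] with y hy
      rw [χ.one_of_mem_closedBall (Metric.ball_subset_closedBall hy), one_mul]
    rw [this.fderiv_eq]
  · simp [hx.2 h]

lemma pair_all {g g0 : V → V} (hg : g ∈ AFb g0) (h0 : Good g0) {ψ : V → ℝ}
    (hψ : ContDiff ℝ ∞ ψ) : ∫ x, fderiv ℝ ψ x (g x - g0 x) = 0 := by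
  let χ : ContDiffBump (0 : V) := ⟨2, 3, by norm_num, by norm_num⟩
  have h1 := hg.2 (fun x => χ x * ψ x) ⟨χ.contDiff.mul hψ, χ.hasCompactSupport.mul_right⟩
  have hgg : Good g := ⟨hg.1.1, hg.1.2.1⟩
  rw [pair_cut hgg χ rfl, pair_cut h0 χ rfl] at h1
  have hc : Continuous (fderiv ℝ ψ) := hψ.continuous_fderiv (by simp)
  simp_rw [map_sub]
  rw [integral_sub (good_int hgg hc) (good_int h0 hc)]
  exact sub_eq_zero.2 h1

def eta (n : ℕ) (t : ℝ) : ℝ := Real.smoothTransition (n * (t - 5 / 2))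

lemma eta_cd (n : ℕ) : ContDiff ℝ ∞ (eta n) :=
  Real.smoothTransition.contDiff.comp (contDiff_const.mul (contDiff_id.sub contDiff_const))

lemma eta_zero (n : ℕ) {t : ℝ} (h : t ≤ 5 / 2) : eta n t = 0 :=
  Real.smoothTransition.zero_of_nonpos (mul_nonpos_of_nonneg_of_nonpos n.cast_nonneg (by linarith))

lemma eta_deriv (n : ℕ) {t : ℝ} (h : t < 5 / 2) : deriv (eta n) t = 0 := by
  have : eta n =ᶠ[𝓝 t] fun _ => 0 :=
    mem_of_superset (Iio_mem_nhds h) fun y hy => eta_zero n (le_of_lt hy)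
  rw [this.deriv_eq]; simp

lemma lim (a : ℝ) {u : V → ℝ} (hu : Integrable u)
    (h : ∀ n, ∫ x, eta n (lin a x) * u x = 0) : ∫ x in {x | 5 / 2 < lin a x}, u x = 0 := by
  rw [← integral_indicator (H_meas a)]
  have := tendsto_integral_of_dominated_convergence (F := fun n x => eta n (lin a x) * u x)
    (f := indicator {x | 5 / 2 < lin a x} u) (μ := volume) (fun x => ‖u x‖)
    (fun n => (((eta_cd n).continuous.comp (lin a).continuous).aestronglyMeasurable).mul hu.1)
    hu.norm (fun n => Eventually.of_forall fun x => by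
      rw [norm_mul]
      refine mul_le_of_le_one_left (norm_nonneg _) ?_
      rw [eta, Real.norm_of_nonneg (Real.smoothTransition.nonneg _)]
      exact Real.smoothTransition.le_one _)
    (Eventually.of_forall fun x => by
      by_cases hx : 5 / 2 < lin a x
      · rw [indicator_of_mem (show x ∈ {x | 5 / 2 < lin a x} from hx)]
        refine tendsto_const_nhds.congr' ?_
        have ht : Tendsto (fun n : ℕ => (n : ℝ) * (lin a x - 5 / 2)) atTop atTop :=
          tendsto_natCast_atTop_atTop.atTop_mul_const (by linarith)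
        filter_upwards [ht.eventually_ge_atTop 1] with n hn
        rw [eta, Real.smoothTransition.one_of_one_le hn, one_mul]
      · rw [indicator_of_notMem (show x ∉ {x | 5 / 2 < lin a x} from hx)]
        simp [eta_zero _ (not_lt.1 hx)])
  simp only [h] at this
  exact (tendsto_nhds_unique tendsto_const_nhds this).symm

lemma fd_eta (n : ℕ) (a : ℝ) (x v : V) :
    fderiv ℝ (fun x => eta n (lin a x)) x v = deriv (eta n) (lin a x) * lin a v := by
  have h := (((eta_cd n).differentiable (by simp)) (lin a x)).hasDerivAt.comp_hasFDerivAt x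
    (lin a).hasFDerivAt
  have h' : HasFDerivAt (fun x => eta n (lin a x)) (deriv (eta n) (lin a x) • lin a) x := h
  rw [h'.fderiv]; simp

lemma half_zero (a : ℝ) {ψ : V → ℝ} (hψ : Test ψ) {v : V} (hv : lin a v = 0) :
    ∫ x in {x | 5 / 2 < lin a x}, fderiv ℝ ψ x v = 0 := by
  have hc : Continuous fun x => fderiv ℝ ψ x v :=
    (hψ.1.continuous_fderiv (by simp)).clm_apply continuous_const
  have hs : HasCompactSupport fun x => fderiv ℝ ψ x v := hψ.2.fderiv_apply ℝ v
  refine lim a (hc.integrable_of_hasCompactSupport hs) fun n => ?_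
  have he : Continuous fun x => eta n (lin a x) := (eta_cd n).continuous.comp (lin a).continuous
  rw [integral_mul_fderiv_eq_neg_fderiv_mul_of_integrable (by simp [fd_eta, hv])
    ((he.mul hc).integrable_of_hasCompactSupport hs.mul_left)
    ((he.mul hψ.1.continuous).integrable_of_hasCompactSupport hψ.2.mul_left)
    (fun x _ => (((eta_cd n).comp (lin a).contDiff).differentiable (by simp)) x)
    (fun x _ => (hψ.1.differentiable (by simp)) x)]
  simp [fd_eta, hv]

lemma full_zero {ψ : V → ℝ} (hψ : Test ψ) (v : V) : ∫ x, fderiv ℝ ψ x v = 0 := by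
  have hc : Continuous fun x => fderiv ℝ ψ x v :=
    (hψ.1.continuous_fderiv (by simp)).clm_apply continuous_const
  have hs : HasCompactSupport fun x => fderiv ℝ ψ x v := hψ.2.fderiv_apply ℝ v
  have := integral_mul_fderiv_eq_neg_fderiv_mul_of_integrable (μ := volume) (f := fun _ : V => (1 : ℝ))
    (g := ψ) (v := v) (by simp) (by simpa using hc.integrable_of_hasCompactSupport hs)
    (by simpa using hψ.1.continuous.integrable_of_hasCompactSupport hψ.2)
    (fun x _ => differentiableAt_const _) (fun x _ => (hψ.1.differentiable (by simp)) x)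
  simpa using this

lemma G_AF {s : V} (hs : s ∈ F) : G s ∈ AF := by
  refine ⟨(G_good hs).1, (G_good hs).2, fun ψ hψ hsup => ?_⟩
  have hi : ∀ v, Integrable fun x => fderiv ℝ ψ x v := fun v =>
    ((hψ.1.continuous_fderiv (by simp)).clm_apply continuous_const).integrable_of_hasCompactSupport
      (hψ.2.fderiv_apply ℝ v)
  have key : ∀ x, fderiv ℝ ψ x (G s x) = fderiv ℝ ψ x e0 +
      indicator {x | 5 / 2 < lin 1 x} (fun x => fderiv ℝ ψ x (s - e0)) x +
      indicator {x | 5 / 2 < lin (-1) x} (fun x => fderiv ℝ ψ x (mir s - e0)) x := by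
    intro x
    by_cases h : x ∈ R
    · rcases cases h with h1 | h1 | h1
      · have : x ∉ {x | 5 / 2 < lin (-1) x} := fun h2 => disj h1 ⟨h, h2⟩
        rw [G_A1 s h1, indicator_of_mem h1.2, indicator_of_notMem this]; simp
      · have : x ∉ {x | 5 / 2 < lin 1 x} := fun h2 => disj ⟨h, h2⟩ h1
        rw [G_A2 s h1, indicator_of_mem h1.2, indicator_of_notMem this]; simp
      · have h2 : x ∉ {x | 5 / 2 < lin 1 x} := fun h2 => h1.2 (Or.inl ⟨h, h2⟩)
        have h3 : x ∉ {x | 5 / 2 < lin (-1) x} := fun h2 => h1.2 (Or.inr ⟨h, h2⟩)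
        rw [G_A3 s h1, indicator_of_notMem h2, indicator_of_notMem h3]; simp
    · have : fderiv ℝ ψ x = 0 := by
        have : x ∉ tsupport ψ := fun h' => h (interior_subset (hsup h'))
        exact fderiv_of_notMem_tsupport ℝ this
      simp [this, indicator]
  rw [pair]
  simp_rw [key]
  rw [integral_add (by exact (hi _).add ((hi _).indicator (H_meas 1))) ((hi _).indicator (H_meas _)),
    integral_add (hi _) ((hi _).indicator (H_meas 1)), integral_indicator (H_meas _),
    integral_indicator (H_meas _), full_zero hψ, half_zero 1 hψ, half_zero (-1) hψ]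
  · simp
  · have := hs.2; simp [lin_apply, mir, e0]; linarith
  · have := hs.2
    rw [map_sub, lin_apply, lin_apply]; simp [e0]; linarith

def sg (y : ℝ) : ℝ := 2 * Real.smoothTransition (y + 1 / 2) - 1
lemma sg_cd : ContDiff ℝ ∞ sg :=
  (contDiff_const.mul (Real.smoothTransition.contDiff.comp (contDiff_id.add contDiff_const))).sub
    contDiff_const
def hh (y : ℝ) : ℝ := ∫ t in (0 : ℝ)..y, sg t
lemma hh_d (y : ℝ) : HasDerivAt hh (sg y) y := (sg_cd.continuous.integral_hasStrictDerivAt 0 y).hasDerivAt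
lemma hh_cd : ContDiff ℝ ∞ hh := by
  rw [contDiff_infty_iff_deriv]
  refine ⟨fun y => (hh_d y).differentiableAt, ?_⟩
  have : deriv hh = sg := funext fun y => (hh_d y).deriv
  rw [this]; exact sg_cd
lemma sg_one {y : ℝ} (h : 1 / 2 ≤ y) : sg y = 1 := by
  rw [sg, Real.smoothTransition.one_of_one_le (by linarith)]; norm_num
lemma sg_neg {y : ℝ} (h : y ≤ -(1 / 2)) : sg y = -1 := by
  rw [sg, Real.smoothTransition.zero_of_nonpos (by linarith)]; norm_num
lemma sg_abs (y : ℝ) : |sg y| ≤ 1 := by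
  have h1 := Real.smoothTransition.le_one (y + 1 / 2)
  have h2 := Real.smoothTransition.nonneg (y + 1 / 2)
  rw [abs_le, sg]; constructor <;> linarith

def phi (x : V) : ℝ := x 0 + hh (x 1) + x 2
lemma phi_cd : ContDiff ℝ ∞ phi :=
  ((contDiff_apply ℝ ℝ 0).add (hh_cd.comp (contDiff_apply ℝ ℝ 1))).add (contDiff_apply ℝ ℝ 2)
lemma phi_fd (x : V) : fderiv ℝ phi x = lin (sg (x 1)) := by
  have h1 := (hh_d (x 1)).comp_hasFDerivAt x (hasFDerivAt_apply (𝕜 := ℝ) 1 x)
  have h : HasFDerivAt phi (lin (sg (x 1))) x :=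
    ((hasFDerivAt_apply (𝕜 := ℝ) 0 x).add h1).add (hasFDerivAt_apply (𝕜 := ℝ) 2 x)
  exact h.fderiv

lemma lin_le {a : ℝ} (ha : |a| ≤ 1) {s : V} (hs : s ∈ O) : lin a s ≤ 1 := by
  have h : |s 0| + |s 1| + |s 2| ≤ 1 := hs
  have h1 : a * s 1 ≤ |s 1| := by
    refine (le_abs_self _).trans ?_
    rw [abs_mul]; exact mul_le_of_le_one_left (abs_nonneg _) ha
  rw [lin_apply]; linarith [le_abs_self (s 0), le_abs_self (s 2)]

lemma lin_G {s : V} (hs : s ∈ F) {x : V} (h : x ∈ R) : lin (sg (x 1)) (G s x) = 1 := by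
  have := hs.2
  rcases cases h with h1 | h1 | h1
  · rw [G_A1 s h1, sg_one (x1_ge h (le_of_lt h1.2)), lin_apply]; linarith
  · rw [G_A2 s h1, sg_neg (x1_le h (le_of_lt h1.2)), lin_apply]; simp [mir]; linarith
  · rw [G_A3 s h1, lin_apply]; simp [e0]

lemma cert {s : V} (hs : s ∈ F) {g : V → V} (hg : g ∈ AFb (G s)) :
    ∀ᵐ x, lin (sg (x 1)) (g x - G s x) = 0 := by
  have hgg : Good g := ⟨hg.1.1, hg.1.2.1⟩
  have hc : Continuous (fderiv ℝ phi) := phi_cd.continuous_fderiv (by simp)
  have h0 := pair_all hg (G_good hs) phi_cd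
  have hi : Integrable fun x => -fderiv ℝ phi x (g x - G s x) := by
    simp_rw [map_sub]; exact ((good_int hgg hc).sub (good_int (G_good hs) hc)).neg
  have hn : 0 ≤ᵐ[volume] fun x => -fderiv ℝ phi x (g x - G s x) := by
    filter_upwards [hgg.2] with x hx
    by_cases h : x ∈ R
    · have := lin_le (sg_abs (x 1)) (hx.1 h)
      simp only [phi_fd, map_sub, lin_G hs h, Pi.zero_apply]; linarith
    · simp [hx.2 h, G_out s h]
  have := (integral_eq_zero_iff_of_nonneg_ae hn hi).1 (by rw [integral_neg, h0, neg_zero])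
  filter_upwards [this] with x hx
  rw [← phi_fd]; exact neg_eq_zero.1 hx

lemma avg_half {g g0 : V → V} (hg : g ∈ AFb g0) (h0 : Good g0) (a : ℝ)
    (h : ∀ᵐ x, 5 / 2 ≤ lin a x → lin a (g x - g0 x) = 0) :
    ∫ x in {x | 5 / 2 < lin a x}, (g x - g0 x) = 0 := by
  have hgg : Good g := ⟨hg.1.1, hg.1.2.1⟩
  have hi : Integrable fun x => g x - g0 x := (good_int' hgg).sub (good_int' h0)
  funext i
  rw [eval_integral (fun j => (hi.eval j).integrableOn) i]
  refine lim a (hi.eval i) fun n => ?_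
  have hcd : ContDiff ℝ ∞ fun x : V => eta n (lin a x) := (eta_cd n).comp (lin a).contDiff
  rw [← pair_all hg h0 (hcd.mul (contDiff_apply ℝ ℝ i))]
  refine integral_congr_ae ?_
  filter_upwards [h] with x hx
  rw [fderiv_fun_mul (hcd.differentiable (by simp) x) (differentiableAt_apply i x)]
  have e : deriv (eta n) (lin a x) * lin a (g x - g0 x) = 0 := by
    by_cases h' : 5 / 2 ≤ lin a x
    · rw [hx h', mul_zero]
    · rw [eta_deriv n (not_le.1 h'), zero_mul]
  simp only [add_apply, smul_apply, fd_eta, e, (hasFDerivAt_apply (𝕜 := ℝ) i x).fderiv]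
  simp

lemma avg_all {g g0 : V → V} (hg : g ∈ AFb g0) (h0 : Good g0) : ∫ x, (g x - g0 x) = 0 := by
  have hgg : Good g := ⟨hg.1.1, hg.1.2.1⟩
  have hi : Integrable fun x => g x - g0 x := (good_int' hgg).sub (good_int' h0)
  funext i
  rw [eval_integral (fun j => hi.eval j) i, Pi.zero_apply,
    ← pair_all hg h0 (contDiff_apply ℝ ℝ i)]
  simp [(hasFDerivAt_apply (𝕜 := ℝ) i _).fderiv]

lemma restr {g g0 : V → V} (hg : Good g) (h0 : Good g0) {S : Set V} (hS : MeasurableSet S) :
    ∫ x in R ∩ S, (g x - g0 x) = ∫ x in S, (g x - g0 x) := by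
  rw [← integral_indicator (R_meas.inter hS), ← integral_indicator hS]
  refine integral_congr_ae ?_
  filter_upwards [hg.2, h0.2] with x h1 h2
  by_cases h : x ∈ R
  · by_cases h' : x ∈ S
    · rw [indicator_of_mem h', indicator_of_mem (show x ∈ R ∩ S from ⟨h, h'⟩)]
    · rw [indicator_of_notMem h', indicator_of_notMem (show x ∉ R ∩ S from fun h2 => h' h2.2)]
  · simp [indicator, h, h1.2 h, h2.2 h]

lemma split {E : Type} [NormedAddCommGroup E] [NormedSpace ℝ E] {u : V → E}
    (hu : IntegrableOn u R) :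
    ∫ x in R, u x = (∫ x in A1, u x) + (∫ x in A2, u x) + ∫ x in A3, u x := by
  have hsub : A1 ∪ A2 ⊆ R := union_subset inter_subset_left inter_subset_left
  rw [A3, setIntegral_sdiff (A1_meas.union A2_meas) hu hsub,
    setIntegral_union (disjoint_left.2 fun x h1 h2 => disj h1 h2) A2_meas
      (hu.mono_set inter_subset_left) (hu.mono_set inter_subset_left)]
  abel

lemma avgs {s : V} (hs : s ∈ F) {g : V → V} (hg : g ∈ AFb (G s)) :
    ∫ x in A1, (g x - s) = 0 ∧ ∫ x in A2, (g x - mir s) = 0 ∧ ∫ x in A3, (g x - e0) = 0 := by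
  have hgg : Good g := ⟨hg.1.1, hg.1.2.1⟩
  have h0 := G_good hs
  have out : ∀ᵐ x, x ∉ R → g x - G s x = 0 := by
    filter_upwards [hgg.2] with x hx h
    rw [hx.2 h, G_out s h, sub_zero]
  have h1 : ∫ x in A1, (g x - G s x) = 0 := by
    rw [A1, restr hgg h0 (H_meas _)]
    refine avg_half hg h0 1 ?_
    filter_upwards [cert hs hg, out] with x hx ho h
    by_cases hR : x ∈ R
    · rwa [sg_one (x1_ge hR h)] at hx
    · rw [ho hR, map_zero]
  have h2 : ∫ x in A2, (g x - G s x) = 0 := by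
    rw [A2, restr hgg h0 (H_meas _)]
    refine avg_half hg h0 (-1) ?_
    filter_upwards [cert hs hg, out] with x hx ho h
    by_cases hR : x ∈ R
    · rwa [sg_neg (x1_le hR h)] at hx
    · rw [ho hR, map_zero]
  have h3 : ∫ x in A3, (g x - G s x) = 0 := by
    have h4 := restr hgg h0 MeasurableSet.univ
    rw [inter_univ, Measure.restrict_univ, avg_all hg h0,
      split (by exact ((good_int' hgg).sub (good_int' h0)).integrableOn), h1, h2] at h4
    simpa using h4
  refine ⟨?_, ?_, ?_⟩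
  · rw [← h1]; exact setIntegral_congr_fun A1_meas fun x hx => by simp [G_A1 s hx]
  · rw [← h2]; exact setIntegral_congr_fun A2_meas fun x hx => by simp [G_A2 s hx]
  · rw [← h3]; exact setIntegral_congr_fun A3_meas fun x hx => by simp [G_A3 s hx]

lemma inO {g : V → V} (hg : Good g) {A : Set V} (hA : MeasurableSet A) (hR : A ⊆ R) :
    ∀ᵐ x ∂volume.restrict A, g x ∈ O :=
  (ae_restrict_iff' hA).2 (hg.2.mono fun _ hx h => hx.1 (hR h))

lemma cint {E : Type} [NormedAddCommGroup E] {A : Set V} (hR : A ⊆ R) (w : E) :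
    IntegrableOn (fun _ => w) A :=
  integrableOn_const (ne_top_of_le_ne_top R_fin (measure_mono hR))

lemma vert {g : V → V} (hg : Good g) {A : Set V} (hA : MeasurableSet A) (hR : A ⊆ R) {w : V}
    (i : Fin 3) (ε : ℝ) (hε : |ε| = 1) (hw : w = Pi.single i ε) (h : ∫ x in A, (g x - w) = 0) :
    ∀ᵐ x, x ∈ A → g x = w := by
  have hi : IntegrableOn (fun x => g x - w) A := (good_int' hg).integrableOn.sub (cint hR w)
  have h1 : ∫ x in A, -ε * (g x - w) i = 0 := by
    rw [integral_const_mul, ← eval_integral (fun j => hi.eval j) i, h]; simp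
  have hε2 : ε * ε = 1 := by rw [← abs_mul_abs_self, hε, one_mul]
  have hb : ∀ y ∈ O, ε * y i ≤ |y i| ∧ |y i| ≤ 1 := fun y hy =>
    ⟨(le_abs_self _).trans (by rw [abs_mul, hε, one_mul]), (norm_le_pi_norm y i).trans (O_norm hy)⟩
  have hn : 0 ≤ᵐ[volume.restrict A] fun x => -ε * (g x - w) i := by
    filter_upwards [inO hg hA hR] with x hx
    have := hb _ hx
    simp only [hw, Pi.sub_apply, Pi.single_eq_same, Pi.zero_apply]; nlinarith
  have := (integral_eq_zero_iff_of_nonneg_ae hn ((hi.eval i).const_mul _)).1 h1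
  rw [← ae_restrict_iff' hA]
  filter_upwards [this, inO hg hA hR] with x hx hO
  simp only [hw, Pi.sub_apply, Pi.single_eq_same, Pi.zero_apply] at hx
  have hx' : g x i = ε := by
    have : ε * (ε * (g x i - ε)) = 0 := by rw [show ε * (g x i - ε) = 0 by linarith, mul_zero]
    rw [← mul_assoc, hε2, one_mul] at this; linarith
  have hO' : |g x 0| + |g x 1| + |g x 2| ≤ 1 := hO
  have a0 := abs_nonneg (g x 0); have a1 := abs_nonneg (g x 1); have a2 := abs_nonneg (g x 2)
  have ha : |g x i| = 1 := by rw [hx', hε]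
  rw [hw]
  funext j
  by_cases hj : j = i
  · rw [hj, Pi.single_eq_same, hx']
  · rw [Pi.single_eq_of_ne hj, ← abs_eq_zero]
    fin_cases i <;> fin_cases j <;> simp at hj ha ⊢ <;> rw [← abs_eq_zero] <;> linarith

lemma O_closed : IsClosed O := isClosed_le (by fun_prop) continuous_const
lemma O_cpt : IsCompact O :=
  (isCompact_closedBall (0 : V) 1).of_isClosed_subset O_closed fun s hs => by
    simpa using O_norm hs

lemma abs_comb {a b : ℝ} (ha : 0 ≤ a) (hb : 0 ≤ b) (u v : ℝ) :
    |a * u + b * v| ≤ a * |u| + b * |v| := by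
  refine (abs_add_le _ _).trans ?_
  rw [abs_mul, abs_mul, abs_of_nonneg ha, abs_of_nonneg hb]

lemma O_conv : Convex ℝ O := fun x hx y hy a b ha hb hab => by
  have hx' : |x 0| + |x 1| + |x 2| ≤ 1 := hx
  have hy' : |y 0| + |y 1| + |y 2| ≤ 1 := hy
  show |a * x 0 + b * y 0| + |a * x 1 + b * y 1| + |a * x 2 + b * y 2| ≤ 1
  nlinarith [abs_comb ha hb (x 0) (y 0), abs_comb ha hb (x 1) (y 1), abs_comb ha hb (x 2) (y 2),
    mul_le_mul_of_nonneg_left hx' ha, mul_le_mul_of_nonneg_left hy' hb]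

lemma shrink {x : V} (hx : x ∈ O) {t : ℝ} (ht : t ∈ Ioo (0 : ℝ) 1) : t • x ∈ O \ Edges := by
  have hx' : |x 0| + |x 1| + |x 2| ≤ 1 := hx
  have : |t * x 0| + |t * x 1| + |t * x 2| < 1 := by
    simp only [abs_mul, abs_of_pos ht.1]
    nlinarith [mul_le_mul_of_nonneg_left hx' ht.1.le, ht.2]
  exact ⟨this.le, fun h => this.ne h.1⟩

lemma conc {ent : V → ℝ} (hc : ContinuousOn ent O) (hs : StrictConcaveOn ℝ (O \ Edges) ent) :
    ConcaveOn ℝ O ent := by
  refine ⟨O_conv, fun x hx y hy a b ha hb hab => ?_⟩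
  have T : ∀ z ∈ O, Tendsto (fun t : ℝ => ent (t • z)) (𝓝[Ioo 0 1] 1) (𝓝 (ent z)) := by
    intro z hz
    refine (hc z hz).tendsto.comp (tendsto_nhdsWithin_iff.2 ⟨?_, ?_⟩)
    · have : Tendsto (fun t : ℝ => t • z) (𝓝 1) (𝓝 ((1 : ℝ) • z)) :=
        (continuous_id.smul continuous_const).tendsto 1
      rw [one_smul] at this
      exact this.mono_left nhdsWithin_le_nhds
    · exact mem_of_superset self_mem_nhdsWithin fun t ht => (shrink hz ht).1
  have : (𝓝[Ioo (0 : ℝ) 1] 1).NeBot := right_nhdsWithin_Ioo_neBot zero_lt_one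
  refine le_of_tendsto_of_tendsto (((T x hx).const_smul a).add ((T y hy).const_smul b))
    (T _ (O_conv hx hy ha hb hab)) (mem_of_superset self_mem_nhdsWithin fun t ht => ?_)
  have := hs.concaveOn.2 (shrink hx ht) (shrink hy ht) ha hb hab
  have e : a • t • x + b • t • y = t • (a • x + b • y) := by module
  rwa [e] at this

lemma offE {x w : V} (hx : x ∈ O) (hw : w ∈ O) (hw0 : ∀ i, w i ≠ 0) {a b : ℝ} (ha : 0 ≤ a)
    (hb : 0 < b) (hab : a + b = 1) : a • x + b • w ∈ O \ Edges := by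
  refine ⟨O_conv hx hw ha hb.le hab, fun ⟨h1, i, hi⟩ => ?_⟩
  have hx' : |x 0| + |x 1| + |x 2| ≤ 1 := hx
  have hw' : |w 0| + |w 1| + |w 2| ≤ 1 := hw
  have h1' : |a * x 0 + b * w 0| + |a * x 1 + b * w 1| + |a * x 2 + b * w 2| = 1 := h1
  have hi' : |a * x i + b * w i| < a * |x i| + b * |w i| := by
    rw [show a * x i + b * w i = 0 from hi, abs_zero]
    have := abs_pos.2 (hw0 i)
    positivity
  have c0 := abs_comb ha hb.le (x 0) (w 0)
  have c1 := abs_comb ha hb.le (x 1) (w 1)
  have c2 := abs_comb ha hb.le (x 2) (w 2)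
  have d1 := mul_le_mul_of_nonneg_left hx' ha
  have d2 := mul_le_mul_of_nonneg_left hw' hb.le
  fin_cases i <;> simp only [Fin.zero_eta, Fin.mk_one, Fin.reduceFinMk, Fin.isValue] at hi' <;>
    nlinarith

lemma strict {ent : V → ℝ} (hc : ContinuousOn ent O) (hs : StrictConcaveOn ℝ (O \ Edges) ent)
    {x w : V} (hx : x ∈ O) (hw : w ∈ O) (hw0 : ∀ i, w i ≠ 0) (hne : x ≠ w) :
    1 / 2 * ent x + 1 / 2 * ent w < ent ((1 / 2 : ℝ) • x + (1 / 2 : ℝ) • w) := by
  have hy := offE hx hw hw0 (a := 1 / 2) (b := 1 / 2) (by norm_num) (by norm_num) (by norm_num)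
  have hz := offE hx hw hw0 (a := 3 / 4) (b := 1 / 4) (by norm_num) (by norm_num) (by norm_num)
  have hw' := offE hx hw hw0 (a := 0) (b := 1) (by norm_num) (by norm_num) (by norm_num)
  rw [zero_smul, one_smul, zero_add] at hw'
  have h1 := (conc hc hs).2 hx hy.1 (show (0 : ℝ) ≤ 1 / 2 by norm_num)
    (show (0 : ℝ) ≤ 1 / 2 by norm_num) (by norm_num)
  have hne' : (3 / 4 : ℝ) • x + (1 / 4 : ℝ) • w ≠ w := fun h => hne (by
    have : x = (4 / 3 : ℝ) • ((3 / 4 : ℝ) • x + (1 / 4 : ℝ) • w) - (1 / 3 : ℝ) • w := by module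
    rw [this, h]; module)
  have h2 := hs.2 hz hw' hne' (show (0 : ℝ) < 2 / 3 by norm_num)
    (show (0 : ℝ) < 1 / 3 by norm_num) (by norm_num)
  have e1 : (1 / 2 : ℝ) • x + (1 / 2 : ℝ) • ((1 / 2 : ℝ) • x + (1 / 2 : ℝ) • w) =
      (3 / 4 : ℝ) • x + (1 / 4 : ℝ) • w := by module
  have e2 : (2 / 3 : ℝ) • ((3 / 4 : ℝ) • x + (1 / 4 : ℝ) • w) + (1 / 3 : ℝ) • w =
      (1 / 2 : ℝ) • x + (1 / 2 : ℝ) • w := by module
  rw [e1] at h1; rw [e2] at h2
  simp only [smul_eq_mul] at h1 h2
  linarith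

lemma ent_int {ent : V → ℝ} (hc : ContinuousOn ent O) {g : V → V} (hg : Good g) {A : Set V}
    (hA : MeasurableSet A) (hR : A ⊆ R) : IntegrableOn (fun x => ent (g x)) A := by
  classical
  obtain ⟨C, hC⟩ := O_cpt.exists_bound_of_continuousOn hc
  have hm : Measurable (O.piecewise ent 0) :=
    hc.measurable_piecewise continuousOn_const O_closed.measurableSet
  refine Integrable.mono' (cint hR C) ?_ ((inO hg hA hR).mono fun x hx => hC _ hx)
  refine (hm.comp_aemeasurable hg.1.restrict).aestronglyMeasurable.congr ?_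
  filter_upwards [inO hg hA hR] with x hx
  simp [hx]

lemma jen {ent : V → ℝ} (hc : ContinuousOn ent O) (hs : ConcaveOn ℝ O ent) {g : V → V}
    (hg : Good g) {A : Set V} (hA : MeasurableSet A) (hR : A ⊆ R) {w : V}
    (h : ∫ x in A, (g x - w) = 0) : ∫ x in A, ent (g x) ≤ ∫ _ in A, ent w := by
  by_cases h0 : volume A = 0
  · simp [Measure.restrict_eq_zero.2 h0]
  have hf : volume A ≠ ⊤ := ne_top_of_le_ne_top R_fin (measure_mono hR)
  have hp : 0 < volume.real A := ENNReal.toReal_pos h0 hf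
  have hj := hs.le_map_set_average hc O_closed h0 hf (inO hg hA hR) (good_int' hg).integrableOn
    (ent_int hc hg hA hR)
  rw [integral_sub (good_int' hg).integrableOn (cint hR w), setIntegral_const, sub_eq_zero] at h
  rw [setAverage_eq, setAverage_eq, h, smul_smul, inv_mul_cancel₀ hp.ne', one_smul, smul_eq_mul,
    inv_mul_le_iff₀ hp] at hj
  rwa [setIntegral_const, smul_eq_mul]

lemma jen_eq {ent : V → ℝ} (hc : ContinuousOn ent O) (hs : StrictConcaveOn ℝ (O \ Edges) ent)
    {g : V → V} (hg : Good g) {A : Set V} (hA : MeasurableSet A) (hR : A ⊆ R) {w : V}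
    (hw : w ∈ O) (hw0 : ∀ i, w i ≠ 0) (h : ∫ x in A, (g x - w) = 0)
    (he : ∫ _ in A, ent w ≤ ∫ x in A, ent (g x)) : ∀ᵐ x, x ∈ A → g x = w := by
  classical
  let m : V → V := fun x => if x ∈ R then (1 / 2 : ℝ) • g x + (1 / 2 : ℝ) • w else 0
  have hm : Good m := by
    refine ⟨?_, hg.2.mono fun x hx => ⟨fun h => ?_, fun h => by simp [m, h]⟩⟩
    · exact ((hg.1.const_smul (1 / 2 : ℝ)).add aemeasurable_const).indicator R_meas
    · simp only [m, if_pos h]
      exact O_conv (hx.1 h) hw (by norm_num) (by norm_num) (by norm_num)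
  have hm0 : ∫ x in A, (m x - w) = 0 := by
    rw [setIntegral_congr_fun hA (g := fun x => (1 / 2 : ℝ) • (g x - w)) fun x hx => by
      simp only [m, if_pos (hR hx)]; module, integral_smul, h, smul_zero]
  have hj := jen hc (conc hc hs) hm hA hR hm0
  have i1 := ent_int hc hm hA hR
  have i2 := ent_int hc hg hA hR
  have i3 := cint hR (ent w)
  have hn : 0 ≤ᵐ[volume.restrict A] fun x => ent (m x) - (1 / 2 * ent (g x) + 1 / 2 * ent w) := by
    filter_upwards [inO hg hA hR, ae_restrict_mem hA] with x hx hxA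
    have := (conc hc hs).2 hx hw (show (0 : ℝ) ≤ 1 / 2 by norm_num)
      (show (0 : ℝ) ≤ 1 / 2 by norm_num) (by norm_num)
    simp only [m, if_pos (hR hxA), Pi.zero_apply, smul_eq_mul] at this ⊢
    linarith
  have hi : Integrable (fun x => ent (m x) - (1 / 2 * ent (g x) + 1 / 2 * ent w))
      (volume.restrict A) := i1.sub ((i2.const_mul _).add (i3.const_mul _))
  have hz := (integral_eq_zero_iff_of_nonneg_ae hn hi).1 (le_antisymm (by
    rw [integral_sub i1 (by exact (i2.const_mul _).add (i3.const_mul _)),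
      integral_add (i2.const_mul _) (i3.const_mul _), integral_const_mul, integral_const_mul]
    linarith) (integral_nonneg_of_ae hn))
  rw [← ae_restrict_iff' hA]
  filter_upwards [hz, inO hg hA hR, ae_restrict_mem hA] with x hx hO hxA
  by_contra hne
  have := strict hc hs hO hw hw0 hne
  simp only [m, if_pos (hR hxA), Pi.zero_apply] at hx
  linarith

lemma glue {s : V} {g : V → V} (hg : Good g) (h1 : ∀ᵐ x, x ∈ A1 → g x = s)
    (h2 : ∀ᵐ x, x ∈ A2 → g x = mir s) (h3 : ∀ᵐ x, x ∈ A3 → g x = e0) : g =ᵐ[volume] G s := by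
  filter_upwards [hg.2, h1, h2, h3] with x hx h1 h2 h3
  by_cases h : x ∈ R
  · rcases cases h with h | h | h
    · rw [G_A1 s h, h1 h]
    · rw [G_A2 s h, h2 h]
    · rw [G_A3 s h, h3 h]
  · rw [hx.2 h, G_out s h]

lemma e0_eq : e0 = Pi.single 0 1 := by
  funext j; fin_cases j <;> simp [e0]

lemma pos (a : ℝ) (ha : a * a = 1) : 0 < volume (R ∩ {x | 5 / 2 < lin a x}) := by
  have ho : IsOpen (Metric.ball (0 : V) 1 ∩ {x | 5 / 2 < lin a x}) :=
    Metric.isOpen_ball.inter (isOpen_lt continuous_const (lin a).continuous)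
  have haa : |a| = 1 := by
    have : |a| * |a| = 1 := by rw [abs_mul_abs_self, ha]
    nlinarith [abs_nonneg a]
  refine (ho.measure_pos volume ⟨![9 / 10, 9 / 10 * a, 9 / 10], ?_, ?_⟩).trans_le
    (measure_mono (inter_subset_inter_left _ (R_eq ▸ Metric.ball_subset_closedBall)))
  · rw [mem_ball_zero_iff, pi_norm_lt_iff one_pos]
    intro i
    fin_cases i <;> simp [haa] <;> norm_num [abs_of_pos]
  · simp only [mem_ofPred_eq, lin_apply]
    simp
    nlinarith

lemma posF {s : V} (hs : 0 < s 1) : 0 < volume (R \ {x | G s x ∈ F}) := by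
  refine (pos (-1) (by norm_num)).trans_le (measure_mono fun x hx => ⟨hx.1, fun h => ?_⟩)
  have h' : G s x ∈ F := h
  rw [G_A2 s hx] at h'
  have := h'.1 1
  simp [mir] at this
  linarith

theorem result :
    (∃ g ∈ AF, (∀ g' ∈ AFb g, g' =ᵐ[volume] g) ∧ (∀ ent : V → ℝ, UniqueMax ent g) ∧
      0 < volume (R ∩ {x | g x ∈ F}) ∧ 0 < volume (R \ {x | g x ∈ F})) ∧
    (∃ g : V → V, (∀ ent : V → ℝ, ContinuousOn ent O → StrictConcaveOn ℝ (O \ Edges) ent →
      UniqueMax ent g) ∧
      0 < volume (R ∩ {x | g x ∈ Fint}) ∧ 0 < volume (R \ {x | g x ∈ F})) := by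
  have s1 : A1 ⊆ R := inter_subset_left
  have s2 : A2 ⊆ R := inter_subset_left
  have s3 : A3 ⊆ R := sdiff_subset
  constructor
  · have hs : (![0, 1, 0] : V) ∈ F := ⟨fun i => by fin_cases i <;> simp, by simp⟩
    have hu : ∀ g' ∈ AFb (G ![0, 1, 0]), g' =ᵐ[volume] G ![0, 1, 0] := fun g hg => by
      have hgg : Good g := ⟨hg.1.1, hg.1.2.1⟩
      obtain ⟨h1, h2, h3⟩ := avgs hs hg
      exact glue hgg
        (vert hgg A1_meas s1 1 1 (by simp) (by funext j; fin_cases j <;> simp) h1)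
        (vert hgg A2_meas s2 1 (-1) (by simp) (by funext j; fin_cases j <;> simp [mir]) h2)
        (vert hgg A3_meas s3 0 1 (by simp) e0_eq h3)
    refine ⟨_, G_AF hs, hu, fun ent => ⟨G_AF hs, fun g hg => le_of_eq ?_, fun g hg _ => hu g hg⟩,
      ?_, posF (by simp)⟩
    · rw [Ent, Ent]
      congr 1
      exact integral_congr_ae ((ae_restrict_of_ae (hu g hg)).mono fun x hx => by simp only [hx])
    · refine (pos 1 (by norm_num)).trans_le (measure_mono fun x hx => ⟨hx.1, ?_⟩)
      show G _ x ∈ F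
      rw [G_A1 _ hx]; exact hs
  · set s : V := fun _ => 1 / 3 with hsd
    have hs' : s ∈ Fint := ⟨fun i => by simp [hsd], by simp only [hsd]; norm_num⟩
    have hs : s ∈ F := ⟨fun i => (hs'.1 i).le, hs'.2⟩
    refine ⟨G s, fun ent hc hst => ?_, ?_, posF (hs'.1 1)⟩
    · have hcv := conc hc hst
      have hG : ∫ x in R, ent (G s x) =
          (∫ _ in A1, ent s) + (∫ _ in A2, ent (mir s)) + ∫ _ in A3, ent e0 := by
        rw [split (ent_int hc (G_good hs) R_meas subset_rfl)]
        congr 1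
        · congr 1
          · exact setIntegral_congr_fun A1_meas fun x hx => by simp only [G_A1 s hx]
          · exact setIntegral_congr_fun A2_meas fun x hx => by simp only [G_A2 s hx]
        · exact setIntegral_congr_fun A3_meas fun x hx => by simp only [G_A3 s hx]
      have hp : 0 < (volume R).toReal⁻¹ := inv_pos.2 (ENNReal.toReal_pos
        ((pos 1 (by norm_num)).trans_le (measure_mono inter_subset_left)).ne' R_fin)
      refine ⟨G_AF hs, fun g hg => ?_, fun g hg hle => ?_⟩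
      · have hgg : Good g := ⟨hg.1.1, hg.1.2.1⟩
        obtain ⟨h1, h2, h3⟩ := avgs hs hg
        refine mul_le_mul_of_nonneg_left ?_ hp.le
        rw [hG, split (ent_int hc hgg R_meas subset_rfl)]
        linarith [jen hc hcv hgg A1_meas s1 h1, jen hc hcv hgg A2_meas s2 h2,
          jen hc hcv hgg A3_meas s3 h3]
      · have hgg : Good g := ⟨hg.1.1, hg.1.2.1⟩
        obtain ⟨h1, h2, h3⟩ := avgs hs hg
        have hle' := le_of_mul_le_mul_left hle hp
        rw [hG, split (ent_int hc hgg R_meas subset_rfl)] at hle'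
        have j1 := jen hc hcv hgg A1_meas s1 h1
        have j2 := jen hc hcv hgg A2_meas s2 h2
        have j3 := jen hc hcv hgg A3_meas s3 h3
        exact glue hgg
          (jen_eq hc hst hgg A1_meas s1 (F_O hs) (fun i => (hs'.1 i).ne') h1 (by linarith))
          (jen_eq hc hst hgg A2_meas s2 (mir_O hs)
            (fun i => by fin_cases i <;> simp [mir, hsd]) h2 (by linarith))
          (vert hgg A3_meas s3 0 1 (by simp) e0_eq h3)
    · refine (pos 1 (by norm_num)).trans_le (measure_mono fun x hx => ⟨hx.1, ?_⟩)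
      show G _ x ∈ Fint
      rw [G_A1 _ hx]; exact hs'

end
end Pool.Agent.Results.MP_f32666_pr.Faces
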